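import Pool.Agent.Y718.IsoZ
import Pool.Agent.Y718.GY

/-!
# The integers are not defined by points of infinite order on double covers

Every existential formula over `ℚ` is equivalent to `∃ z w, w² = f(z)` with one polynomial `f` of
degree at most four. We consider an arbitrary polynomial `f` over `ℚ` in `n` variables and those
rational solutions of `w² = f(z)` with `w ≠ 0` which are nondegenerate: there is a basis of
directions along which `f` has degree at most two, or degree at most four with a point of infinite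
order (see `Nondegenerate`). For polynomials of degree at most four in each variable these are double
covers of `(ℙ¹)ⁿ`: K3 surfaces for `n = 2`, Calabi-Yau varieties for `n ≥ 3`.

A *block* is the set of these points in some of the variables, or one of the blocks considered in
`CubicEquations`. Take the values of arbitrary rational functions at the rational points of a product
of blocks, restricted to an arbitrary open subset of the real space, and take finite unions of such
sets. A set of this kind has only finitely many isolated points. In particular, a set of integers of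
this kind is finite.

The proof uses that the closure of the set of these points is semialgebraic over `ℚ` (theorem
`CalabiYauDoubleCovers` of the problem MP_42de19_nt).
-/

set_option autoImplicit false

namespace Pool.Agent.Results.MP_28f2cb_lc.CalabiYauDoubleCovers

open MvPolynomial Pool.Agent.TH729.SQ Pool.Agent.Y718 Pool.Agent.Y718.SupL Pool.Agent.H581R2

/-- The polynomial `f(z + t v)` in `t`. -/
noncomputable def restriction {n : ℕ} (f : MvPolynomial (Fin n) ℚ) (z v : Fin n → ℚ) :
    Polynomial ℚ :=
  aeval (fun k => Polynomial.C (z k) + Polynomial.C (v k) * Polynomial.X) f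

/-- The polynomial `f` has degree at most `d` on all lines of direction `v`. -/
def DegreeAtMost {n : ℕ} (d : ℕ) (f : MvPolynomial (Fin n) ℚ) (v : Fin n → ℚ) : Prop :=
  ∀ z : Fin n → ℚ, (restriction f z v).natDegree ≤ d

/-- The Jacobian of the curve `s² = q(t)`, where `q` is a polynomial of degree at most `4`. -/
def jacobian (q : Polynomial ℚ) : WeierstrassCurve ℚ where
  a₁ := 0
  a₂ := q.coeff 2
  a₃ := 0
  a₄ := q.coeff 1 * q.coeff 3 - 4 * q.coeff 0 * q.coeff 4
  a₆ := q.coeff 1 ^ 2 * q.coeff 4 + q.coeff 0 * q.coeff 3 ^ 2 -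
    4 * q.coeff 0 * q.coeff 2 * q.coeff 4

/-- The Jacobian is nonsingular, `q(0) = w²` for a rational number `w ≠ 0`, and the difference of
the two points `(0, w)` and `(0, -w)` has infinite order. -/
def InfiniteOrder (q : Polynomial ℚ) : Prop :=
  (jacobian q).Δ ≠ 0 ∧ ∃ (w x y : ℚ) (h : (jacobian q).toAffine.Nonsingular x y),
    w ≠ 0 ∧ w ^ 2 = q.coeff 0 ∧ x = q.coeff 1 ^ 2 / (4 * w ^ 2) - q.coeff 2 ∧
    y = (q.coeff 1 * x + 2 * w ^ 2 * q.coeff 3) / (2 * w) ∧
    ∀ m : ℕ, m ≠ 0 → m • WeierstrassCurve.Affine.Point.some x y h ≠ 0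

/-- The point `z` is nondegenerate: there is a basis `b` of directions of degree at most `4`, such
that each `b k` is of degree at most `2` or the condition of infinite order is satisfied at some
point which differs from `z` by a linear combination of the preceding vectors. -/
def Nondegenerate {n : ℕ} (f : MvPolynomial (Fin n) ℚ) (z : Fin n → ℚ) : Prop :=
  ∃ b : Fin n → Fin n → ℚ, LinearIndependent ℚ b ∧ ∀ k, DegreeAtMost 4 f (b k) ∧
    (DegreeAtMost 2 f (b k) ∨ ∃ c : Fin n → ℚ, (∀ l, k ≤ l → c l = 0) ∧
      InfiniteOrder (restriction f (z + ∑ j, c j • b j) (b k)))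

/-- `S` is the set of the rational points `(w, z)` with `w² = f(z)`, `w ≠ 0`, for which `z` is
nondegenerate, where `f` is a polynomial. -/
def NondegeneratePoints {n : ℕ} (S : Set (Fin (n + 1) → ℚ)) : Prop :=
  ∃ f : MvPolynomial (Fin n) ℚ,
    S = {u | u 0 ≠ 0 ∧ u 0 ^ 2 = eval (fun k => u k.succ) f ∧ Nondegenerate f fun k => u k.succ}

/-- A block of `CubicEquations`, or the set of the points whose coordinates in some of `N`
variables form a point of a set as in `NondegeneratePoints`. -/
def Block {N : ℕ} (S : Set (Fin N → ℚ)) : Prop :=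
  CubicEquations.Block S ∨
  ∃ (n : ℕ) (e : Fin (n + 1) → Fin N) (S₀ : Set (Fin (n + 1) → ℚ)), Function.Injective e ∧
    NondegeneratePoints S₀ ∧ S = {y | (fun i => y (e i)) ∈ S₀}

lemma nondegenerate_iff {n : ℕ} (f : MvPolynomial (Fin n) ℚ) (z : Fin n → ℚ) :
    Nondegenerate f z ↔ Pool.Agent.Y718.X.NX f z := by
  have h : ∀ q, InfiniteOrder q ↔ Pool.Agent.Y718.X.Inf q := fun q => Pool.Agent.Y718.X.infO_iff q
  unfold Nondegenerate Pool.Agent.Y718.X.NX
  simp only [h]
  exact Iff.rfl

lemma NondegeneratePoints.sa {n : ℕ} {S : Set (Fin (n + 1) → ℚ)} (h : NondegeneratePoints S) :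
    SA (closure (rl S)) := by
  obtain ⟨f, rfl⟩ := h
  have h1 := Pool.Agent.Y718.X.dcN_SA f
  have h2 : Pool.Agent.Y718.X.dcN f = {u | u 0 ≠ 0 ∧ u 0 ^ 2 = eval (fun k => u k.succ) f ∧
      Nondegenerate f fun k => u k.succ} := by
    ext u
    simp only [Pool.Agent.Y718.X.dcN, nondegenerate_iff]
  rw [h2] at h1
  exact h1

lemma Block.sa {N : ℕ} {S : Set (Fin N → ℚ)} (h : Block S) : SA (closure (rl S)) := by
  rcases h with h | ⟨n, e, S₀, he, hS₀, rfl⟩
  · exact IsoR.cubic_SA h
  · exact cyl_rl hS₀.sa he

open CubicEquations (values)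

theorem result :
    -- finitely many isolated points
    (∀ (a b N m : ℕ) (S : Fin a → Fin b → Set (Fin N → ℚ)), (∀ i j, Block (S i j)) →
      ∀ (Ω : Fin a → Set (Fin b × Fin N → ℝ)), (∀ i, IsOpen (Ω i)) →
      ∀ (p : Fin a → Fin m → MvPolynomial (Fin b × Fin N) ℚ)
        (q : Fin a → MvPolynomial (Fin b × Fin N) ℚ) (D : Set (Fin m → ℚ)),
        D = ⋃ i, values (algebraMap ℚ ℝ) (S i) (Ω i) (p i) (q i) →
        {t ∈ D | ∃ U ∈ nhds (fun k => (t k : ℝ)), ∀ s ∈ D, (fun k => (s k : ℝ)) ∈ U →
          s = t}.Finite) ∧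
    -- sets of integers of this kind are finite
    (∀ (a b N : ℕ) (S : Fin a → Fin b → Set (Fin N → ℚ)), (∀ i j, Block (S i j)) →
      ∀ (Ω : Fin a → Set (Fin b × Fin N → ℝ)), (∀ i, IsOpen (Ω i)) →
      ∀ (p q : Fin a → MvPolynomial (Fin b × Fin N) ℚ) (D : Set ℚ),
        D = {t | ∃ i, ∃ x : Fin b × Fin N → ℚ, (∀ j, (fun r => x (j, r)) ∈ S i j) ∧
          (fun s => ((x s : ℚ) : ℝ)) ∈ Ω i ∧ eval x (q i) ≠ 0 ∧
          t = eval x (p i) / eval x (q i)} →
        D ⊆ Set.range ((↑) : ℤ → ℚ) → D.Finite) ∧
    -- in particular, the set of the values of a rational function at the nondegenerate solutions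
    -- of one equation is not the set of the integers
    (∀ (n : ℕ) (S : Set (Fin (n + 1) → ℚ)), NondegeneratePoints S → ∀ p q : MvPolynomial (Fin (n + 1)) ℚ,
        {t : ℚ | ∃ y ∈ S, eval y q ≠ 0 ∧ t = eval y p / eval y q} ≠
          Set.range ((↑) : ℤ → ℚ)) := by
  refine ⟨?_, ?_, ?_⟩
  · intro a b N m S hS Ω hΩ p q D hD
    exact IsoR.iso_union (fun i j => (hS i j).sa) hΩ p q hD
  · intro a b N S hS Ω hΩ p q D hD hDZ
    exact IsoR.ints (fun i j => (hS i j).sa) hΩ p q hD hDZ
  · intro n S hS p q
    exact IsoR.one hS.sa p q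

end Pool.Agent.Results.MP_28f2cb_lc.CalabiYauDoubleCovers
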