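import Pool.Agent.Y718.IsoZ

/-!
# The integers are not defined by quadric bundles over the line

Every existential formula over `ℚ` is equivalent to `∃ z w, w² = f(z)` with one polynomial `f` of
degree at most four. We consider the equations `w² = f(x, y₁, …, y_n)`, where `f` is a polynomial
over `ℚ` of degree at most four in `x` and of total degree at most two in `y₁, …, y_n`, without any
further hypothesis. For `n = 1` these are the conic bundle surfaces `w² = A(x) y² + B(x) y + C(x)`
with `deg A, deg B, deg C ≤ 4`.

A *block* is the set of all the rational solutions of such an equation in some of the variables, or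
one of the blocks considered in `CubicEquations` (the zeros of one equation of degree at most three,
of two equations of degree at most two, or of certain equations of bidegree `(2, 2)`; free
parameters). Take the values of arbitrary rational functions at the rational points of a product of
blocks, restricted to an arbitrary open subset of the real space, and take finite unions of such
sets. A set of this kind has only finitely many isolated points. In particular, a set of integers of
this kind is finite: the integers are not defined in `ℚ` by such formulas, even with strict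
polynomial inequalities as additional conditions.

The proof uses that the closure of the set of the solutions is semialgebraic over `ℚ` (theorem
`QuadricBundles` of the problem MP_42de19_nt): the set of the values at the points of the closure at
which the functions are locally constant is countable and semialgebraic, hence finite.
-/

set_option autoImplicit false

namespace Pool.Agent.Results.MP_28f2cb_lc.QuadricBundles

open MvPolynomial Pool.Agent.TH729.SQ Pool.Agent.Y718 Pool.Agent.Y718.SupL Pool.Agent.H581R2

/-- The set of the rational solutions `(w, x, y₁, …, y_n)` of an equation `w² = f(x, y₁, …, y_n)`,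
where `f` is a polynomial of degree at most four in `x` and of total degree at most two in
`y₁, …, y_n`. -/
def QuadricBundle {n : ℕ} (S : Set (Fin (n + 2) → ℚ)) : Prop :=
  ∃ f : MvPolynomial (Fin (n + 1)) ℚ, f.degreeOf 0 ≤ 4 ∧
    (∀ d ∈ f.support, ∑ j : Fin n, d j.succ ≤ 2) ∧ S = {u | u 0 ^ 2 = eval (fun k => u k.succ) f}

/-- A block of `CubicEquations`, or the set of the points whose coordinates in some of `N`
variables form a point of a set as in `QuadricBundle`. -/
def Block {N : ℕ} (S : Set (Fin N → ℚ)) : Prop :=
  CubicEquations.Block S ∨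
  ∃ (n : ℕ) (e : Fin (n + 2) → Fin N) (S₀ : Set (Fin (n + 2) → ℚ)), Function.Injective e ∧
    QuadricBundle S₀ ∧ S = {y | (fun i => y (e i)) ∈ S₀}

lemma QuadricBundle.sa {n : ℕ} {S : Set (Fin (n + 2) → ℚ)} (h : QuadricBundle S) :
    SA (closure (rl S)) := by
  obtain ⟨f, h0, hy, rfl⟩ := h
  exact line_final f h0 hy

lemma Block.sa {N : ℕ} {S : Set (Fin N → ℚ)} (h : Block S) : SA (closure (rl S)) := by
  rcases h with h | ⟨n, e, S₀, he, hS₀, rfl⟩
  · exact IsoR.cubic_SA h
  · exact cyl_rl hS₀.sa he

open CubicEquations (values)

theorem result :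
    -- finitely many isolated points
    (∀ (a b N m : ℕ) (S : Fin a → Fin b → Set (Fin N → ℚ)), (∀ i j, Block (S i j)) →
      ∀ (Ω : Fin a → Set (Fin b × Fin N → ℝ)), (∀ i, IsOpen (Ω i)) →
      ∀ (p : Fin a → Fin m → MvPolynomial (Fin b × Fin N) ℚ)
        (q : Fin a → MvPolynomial (Fin b × Fin N) ℚ) (D : Set (Fin m → ℚ)),
        D = ⋃ i, values (algebraMap ℚ ℝ) (S i) (Ω i) (p i) (q i) →
        {t ∈ D | ∃ U ∈ nhds (fun k => (t k : ℝ)), ∀ s ∈ D, (fun k => (s k : ℝ)) ∈ U →
          s = t}.Finite) ∧
    -- sets of integers of this kind are finite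
    (∀ (a b N : ℕ) (S : Fin a → Fin b → Set (Fin N → ℚ)), (∀ i j, Block (S i j)) →
      ∀ (Ω : Fin a → Set (Fin b × Fin N → ℝ)), (∀ i, IsOpen (Ω i)) →
      ∀ (p q : Fin a → MvPolynomial (Fin b × Fin N) ℚ) (D : Set ℚ),
        D = {t | ∃ i, ∃ x : Fin b × Fin N → ℚ, (∀ j, (fun r => x (j, r)) ∈ S i j) ∧
          (fun s => ((x s : ℚ) : ℝ)) ∈ Ω i ∧ eval x (q i) ≠ 0 ∧
          t = eval x (p i) / eval x (q i)} →
        D ⊆ Set.range ((↑) : ℤ → ℚ) → D.Finite) ∧
    -- in particular, the set of the values of a rational function at the solutions of one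
    -- equation is not the set of the integers
    (∀ (n : ℕ) (S : Set (Fin (n + 2) → ℚ)), QuadricBundle S → ∀ p q : MvPolynomial (Fin (n + 2)) ℚ,
        {t : ℚ | ∃ y ∈ S, eval y q ≠ 0 ∧ t = eval y p / eval y q} ≠
          Set.range ((↑) : ℤ → ℚ)) := by
  refine ⟨?_, ?_, ?_⟩
  · intro a b N m S hS Ω hΩ p q D hD
    exact IsoR.iso_union (fun i j => (hS i j).sa) hΩ p q hD
  · intro a b N S hS Ω hΩ p q D hD hDZ
    exact IsoR.ints (fun i j => (hS i j).sa) hΩ p q hD hDZ
  · intro n S hS p q
    exact IsoR.one hS.sa p q

end Pool.Agent.Results.MP_28f2cb_lc.QuadricBundles
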