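import Pool.Agent.Y718.LZ.Blk
import Pool.Agent.Y718.FQ.Bd
import Pool.Agent.TH783.CE.NF
import Pool.Agent.TH766.HP.T_RICH
import Pool.Agent.Results.MP_28f2cb_lc.CubicEquations

/-!
# The integers are not defined by smooth quartic double covers

Every existential formula over `ℚ` is equivalent to `∃ z w, w² = f(z)` with one polynomial `f` of
degree at most four (the negative of a sum of squares; then `w = 0` in all solutions). We consider
the equations `w² = f(z₁, …, z_n)`, `n ≥ 2`, such that the quartic hypersurface defined by `f` in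
`ℙⁿ` is smooth, and their solutions with `w ≠ 0`: the rational points outside the branch divisor of
the double cover `X` of `ℙⁿ` (a del Pezzo surface of degree two if `n = 2`, a Fano variety if
`n ≥ 3`).

Let `K` be a number field and `L` its completion at a place. A *block* is the set of the solutions
in `K` of an equation of this kind, in some of the variables, or one of the blocks considered in
`CubicEquations` (the zeros of one equation of degree at most three, of two equations of degree at
most two, or of certain equations of bidegree `(2, 2)`; free parameters). Take the values of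
arbitrary rational functions at the points with coordinates in `K` of a product of blocks,
restricted to an arbitrary open subset of the `L`-valued points, and take finite unions of such
sets. A set of this kind has only finitely many points which are isolated in it for the topology of
`L`. In particular, a set of integers of this kind is finite: the integers are not defined in `ℚ`
by such formulas (even with strict polynomial inequalities as additional conditions).

The main ingredient: for every number field `K` and all completions `L` the points of `X(K)` close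
to a given point of `X(K)`, which is not on the branch divisor and does not belong to a finite set
of fibres, are Zariski dense in `X`.
-/

set_option autoImplicit false

namespace Pool.Agent.Results.MP_28f2cb_lc.QuarticDoubleCovers

open MvPolynomial

/-- The points `y = (w, z₁, …, z_n)` with coordinates in `K` and `w ≠ 0` of a double cover
`w² = F(1, z₁, …, z_n)`, where `n ≥ 2` and `F` is a form of degree four over `K` such that the
hypersurface `F = 0` in `ℙⁿ` is smooth. The vector `(1, z₁, …, z_n)` is `Function.update y 0 1`. -/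
def DoubleCover {K : Type} [Field K] {n : ℕ} (S : Set (Fin (n + 1) → K)) : Prop :=
  2 ≤ n ∧ ∃ F : MvPolynomial (Fin (n + 1)) K, F.IsHomogeneous 4 ∧
    (∀ y : Fin (n + 1) → AlgebraicClosure K, (∀ i, aeval y (pderiv i F) = 0) → y = 0) ∧
    S = {y | y 0 ^ 2 = eval (Function.update y 0 1) F ∧ y 0 ≠ 0}

/-- A block of `CubicEquations`, or a double cover as in `DoubleCover` in some of the variables. -/
def Block {K : Type} [Field K] {N : ℕ} (S : Set (Fin N → K)) : Prop :=
  CubicEquations.Block S ∨
  ∃ (n : ℕ) (e : Fin (n + 1) → Fin N) (S₀ : Set (Fin (n + 1) → K)), Function.Injective e ∧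
    DoubleCover S₀ ∧ S = {y | (fun i => y (e i)) ∈ S₀}

open CubicEquations (values)

theorem result :
    -- number fields: finitely many isolated points in every completion
    (∀ (K : Type) [Field K] [NumberField K] (L : Type) [NontriviallyNormedField L]
      [CompleteSpace L] (σ : K →+* L), DenseRange σ →
      ∀ (a b N m : ℕ) (S : Fin a → Fin b → Set (Fin N → K)), (∀ i j, Block (S i j)) →
      ∀ (Ω : Fin a → Set (Fin b × Fin N → L)), (∀ i, IsOpen (Ω i)) →
      ∀ (p : Fin a → Fin m → MvPolynomial (Fin b × Fin N) K)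
        (q : Fin a → MvPolynomial (Fin b × Fin N) K) (D : Set (Fin m → K)),
        D = ⋃ i, values σ (S i) (Ω i) (p i) (q i) →
        {t ∈ D | ∃ U ∈ nhds (fun k => σ (t k)), ∀ s ∈ D, (fun k => σ (s k)) ∈ U →
          s = t}.Finite) ∧
    -- the rational numbers: sets of integers of this kind are finite
    (∀ (a b N : ℕ) (S : Fin a → Fin b → Set (Fin N → ℚ)), (∀ i j, Block (S i j)) →
      ∀ (Ω : Fin a → Set (Fin b × Fin N → ℝ)), (∀ i, IsOpen (Ω i)) →
      ∀ (p q : Fin a → MvPolynomial (Fin b × Fin N) ℚ) (D : Set ℚ),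
        D = {t | ∃ i, ∃ x : Fin b × Fin N → ℚ, (∀ j, (fun r => x (j, r)) ∈ S i j) ∧
          (fun s => ((x s : ℚ) : ℝ)) ∈ Ω i ∧ eval x (q i) ≠ 0 ∧
          t = eval x (p i) / eval x (q i)} →
        D ⊆ Set.range ((↑) : ℤ → ℚ) → D.Finite) ∧
    -- in particular, the set of the values of a rational function at the points of one double
    -- cover is not the set of the integers
    (∀ (n : ℕ) (S : Set (Fin (n + 1) → ℚ)), DoubleCover S →
      ∀ p q : MvPolynomial (Fin (n + 1)) ℚ,
        {t : ℚ | ∃ y ∈ S, eval y q ≠ 0 ∧ t = eval y p / eval y q} ≠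
          Set.range ((↑) : ℤ → ℚ)) := by
  have h1 : ∀ (K : Type) [Field K] [NumberField K] (L : Type) [NontriviallyNormedField L]
      [CompleteSpace L] (σ : K →+* L), DenseRange σ →
      ∀ (a b N m : ℕ) (S : Fin a → Fin b → Set (Fin N → K)), (∀ i j, Block (S i j)) →
      ∀ (Ω : Fin a → Set (Fin b × Fin N → L)), (∀ i, IsOpen (Ω i)) →
      ∀ (p : Fin a → Fin m → MvPolynomial (Fin b × Fin N) K)
        (q : Fin a → MvPolynomial (Fin b × Fin N) K) (D : Set (Fin m → K)),
        D = ⋃ i, values σ (S i) (Ω i) (p i) (q i) →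
        {t ∈ D | ∃ U ∈ nhds (fun k => σ (t k)), ∀ s ∈ D, (fun k => σ (s k)) ∈ U →
          s = t}.Finite := by
    intro K _ _ L _ _ σ hσ a b N m S hS Ω hΩ p q D hD
    have : CharZero L := charZero_of_injective_ringHom σ.injective
    have : ProperSpace L := Pool.Agent.W279.Tri.properSpace_of_denseRange σ hσ
    obtain ⟨P, hP, -, ⟨ρ⟩⟩ := Pool.Agent.TH783.CE.exists_embedding Pool.Agent.TH766.HP.four K
    subst hD
    refine Pool.Agent.TH729.CV.isolated_union (fun (t : Fin m → K) k => σ (t k)) _ fun i => ?_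
    have hFA : ∀ j, Pool.Agent.TH729.CV.FA σ (S i j) := by
      intro j
      rcases hS i j with (⟨f, g, hfg, hS'⟩ | ⟨n, e, S₀, he, ⟨hn, A, B, C, hA, hB, hC, hind,
        hdet, hS₀⟩, hS'⟩) | ⟨n, e, S₀, he, ⟨hn, F, hF, hsm, hS₀⟩, hS'⟩
      · rw [hS']
        exact Pool.Agent.TH729.CV.FA.block σ hσ hfg
      · rw [hS']
        refine Pool.Agent.TH729.CV.FA.cyl hσ ?_ he
        obtain ⟨𝓑, h𝓑, hbad⟩ := Pool.Agent.TH729.BQ.matFam_bad hA hB hC hdet
        have h3 := Pool.Agent.TH729.BQ.FA_V σ hσ
          (F := Pool.Agent.TH729.BQ.matFam A B C hA hB hC)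
          (Pool.Agent.TH729.BQ.matFam_ind hA hB hC hind) hn h𝓑 hbad
        have h4 : (Pool.Agent.TH729.BQ.matFam A B C hA hB hC).V = S₀ := by
          rw [hS₀]
          ext y
          show (_ = _) ↔ _ = _
          rw [Pool.Agent.TH729.BQ.matFam_val]
          simp only [Matrix.cons_val_zero, Matrix.cons_val_one, Matrix.cons_val_fin_one, mul_one,
            one_pow, one_smul]
        rwa [h4] at h3
      · rw [hS']
        refine Pool.Agent.TH729.CV.FA.cyl hσ ?_ he
        rw [hS₀]
        exact Pool.Agent.Y718.LZ.FA_pts Pool.Agent.Y718.FQ.bd ρ hn hF hsm σ hσ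
    have h2 := Pool.Agent.TH729.CV.FA.prod (σ := σ) (D := fun j => S i j) hFA
    exact Pool.Agent.TH729.CV.vals_isolated h2 (hΩ i) (p i) (q i)
  have h2 : ∀ (a b N : ℕ) (S : Fin a → Fin b → Set (Fin N → ℚ)), (∀ i j, Block (S i j)) →
      ∀ (Ω : Fin a → Set (Fin b × Fin N → ℝ)), (∀ i, IsOpen (Ω i)) →
      ∀ (p q : Fin a → MvPolynomial (Fin b × Fin N) ℚ) (D : Set ℚ),
        D = {t | ∃ i, ∃ x : Fin b × Fin N → ℚ, (∀ j, (fun r => x (j, r)) ∈ S i j) ∧
          (fun s => ((x s : ℚ) : ℝ)) ∈ Ω i ∧ eval x (q i) ≠ 0 ∧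
          t = eval x (p i) / eval x (q i)} →
        D ⊆ Set.range ((↑) : ℤ → ℚ) → D.Finite := by
    intro a b N S hS Ω hΩ p q D hD hDZ
    have h3 := h1 ℚ ℝ (algebraMap ℚ ℝ) Rat.denseRange_cast a b N 1 S hS Ω hΩ
      (fun i _ => p i) q _ rfl
    have hval : ∀ t : Fin 1 → ℚ, t ∈ (⋃ i, values (algebraMap ℚ ℝ) (S i) (Ω i)
        (fun _ : Fin 1 => p i) (q i)) ↔ t 0 ∈ D := by
      intro t
      rw [hD, Set.mem_iUnion]
      constructor
      · rintro ⟨i, x, hx1, hx2, hx3, hx4⟩
        exact ⟨i, x, hx1, hx2, hx3, hx4 0⟩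
      · rintro ⟨i, x, hx1, hx2, hx3, hx4⟩
        refine ⟨i, x, hx1, hx2, hx3, fun k => ?_⟩
        rw [Subsingleton.elim k 0]
        exact hx4
    have h4 : D ⊆ (fun t : Fin 1 → ℚ => t 0) '' {t ∈ (⋃ i, values (algebraMap ℚ ℝ) (S i)
        (Ω i) (fun _ : Fin 1 => p i) (q i)) | ∃ U ∈ nhds (fun k => algebraMap ℚ ℝ (t k)),
          ∀ s ∈ (⋃ i, values (algebraMap ℚ ℝ) (S i) (Ω i) (fun _ : Fin 1 => p i) (q i)),
            (fun k => algebraMap ℚ ℝ (s k)) ∈ U → s = t} := by
      intro t ht
      refine ⟨fun _ => t, ⟨(hval _).2 ht, {z | z 0 ∈ Metric.ball ((t : ℚ) : ℝ) 1}, ?_, ?_⟩, rfl⟩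
      · exact (continuous_apply (0 : Fin 1)).continuousAt.preimage_mem_nhds
          (Metric.ball_mem_nhds _ one_pos)
      · intro s hs hsU
        have hs' := (hval s).1 hs
        obtain ⟨u, hu⟩ := hDZ ht
        obtain ⟨v, hv⟩ := hDZ hs'
        have h5 : (algebraMap ℚ ℝ (s 0)) ∈ Metric.ball ((t : ℚ) : ℝ) 1 := hsU
        rw [← hv, ← hu] at h5
        simp only [Metric.mem_ball, map_intCast, Rat.cast_intCast, Real.dist_eq] at h5
        have h6 : |v - u| < 1 := by exact_mod_cast h5
        have h7 : v - u = 0 := Int.abs_lt_one_iff.1 h6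
        have h8 : v = u := by omega
        funext k
        rw [Subsingleton.elim k 0, ← hv, ← hu, h8]
    exact (h3.image _).subset h4
  refine ⟨h1, h2, fun n S hS p q heq => ?_⟩
  have hr : ∀ (P : MvPolynomial (Fin (n + 1)) ℚ) (x : Fin 1 × Fin (n + 1) → ℚ),
      eval x (rename (fun i : Fin (n + 1) => ((0 : Fin 1), i)) P) = eval (fun i => x (0, i)) P := by
    intro P x
    rw [eval_rename]
    rfl
  refine Set.infinite_range_of_injective (f := ((↑) : ℤ → ℚ)) Int.cast_injective ?_
  refine h2 1 1 (n + 1) (fun _ _ => S) (fun _ _ => Or.inr ⟨n, id, S, Function.injective_id, hS,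
    rfl⟩) (fun _ => Set.univ) (fun _ => isOpen_univ)
    (fun _ => rename (fun i : Fin (n + 1) => ((0 : Fin 1), i)) p)
    (fun _ => rename (fun i : Fin (n + 1) => ((0 : Fin 1), i)) q) _ ?_ subset_rfl
  rw [← heq]
  ext t
  constructor
  · rintro ⟨y, hy1, hy2, hy3⟩
    exact ⟨0, fun s => y s.2, fun _ => hy1, Set.mem_univ _, by rw [hr]; exact hy2, by
      rw [hr, hr]; exact hy3⟩
  · rintro ⟨-, x, hx1, -, hx3, hx4⟩
    rw [hr] at hx3
    rw [hr, hr] at hx4
    exact ⟨fun r => x (0, r), hx1 0, hx3, hx4⟩

end Pool.Agent.Results.MP_28f2cb_lc.QuarticDoubleCovers
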