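import Pool.Agent.Y718.IsoZ

/-!
# The integers are not defined by nondegenerate points of equations of degree four

Every existential formula over `ℚ` is equivalent to `∃ z w, w² = f(z)` with one polynomial `f` of
degree at most four. We consider the polynomials `f` over `ℚ` of degree at most four in each of the
variables `z₁, …, z_n` and the rational solutions of `w² = f(z)` which satisfy algebraic conditions
of nondegeneracy for all variables (see `Nondegenerate`).

A *block* is the set of these points in some of the variables, or one of the blocks considered in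
`CubicEquations`. Take the values of arbitrary rational functions at the rational points of a product
of blocks, restricted to an arbitrary open subset of the real space, and take finite unions of such
sets. A set of this kind has only finitely many isolated points. In particular, a set of integers of
this kind is finite.

The proof uses that the closure of the set of these points is semialgebraic over `ℚ` (theorem
`SeveralParameters` of the problem MP_42de19_nt).
-/

set_option autoImplicit false

namespace Pool.Agent.Results.MP_28f2cb_lc.SeveralParameters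

open MvPolynomial Pool.Agent.TH729.SQ Pool.Agent.Y718 Pool.Agent.Y718.SupL Pool.Agent.H581R2

/-- The polynomial `f` has degree at most two along each line of direction `v`. -/
def QuadraticAlong {n : ℕ} (f : MvPolynomial (Fin n) ℚ) (v : Fin n → ℚ) : Prop :=
  ∀ z : Fin n → ℚ, ∃ A B : ℚ, ∀ s : ℚ, eval (z + s • v) f = A * s ^ 2 + B * s + eval z f

/-- The polynomial `f(z + s v)` in `s`. -/
noncomputable def restriction {n : ℕ} (f : MvPolynomial (Fin n) ℚ) (z v : Fin n → ℚ) :
    Polynomial ℚ :=
  aeval (fun k => Polynomial.C (z k) + Polynomial.C (v k) * Polynomial.X) f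

/-- The cubic covariant of the pencil of lines through `z`. -/
noncomputable def B {n : ℕ} (f : MvPolynomial (Fin n) ℚ) (z v : Fin n → ℚ) : ℚ :=
  (restriction f z v).coeff 1 ^ 3 -
    4 * (restriction f z v).coeff 0 * (restriction f z v).coeff 1 * (restriction f z v).coeff 2 +
    8 * (restriction f z v).coeff 0 ^ 2 * (restriction f z v).coeff 3

/-- The quartic covariant of the pencil of lines through `z`. -/
noncomputable def T {n : ℕ} (f : MvPolynomial (Fin n) ℚ) (z v : Fin n → ℚ) : ℚ :=
  ((restriction f z v).coeff 1 ^ 2 -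
    4 * (restriction f z v).coeff 0 * (restriction f z v).coeff 2) ^ 2 -
    64 * (restriction f z v).coeff 0 ^ 3 * (restriction f z v).coeff 4

/-- The point `z` is nondegenerate for the `i`-th variable: `f` has degree at most two in this
variable, or there is a nondegenerate quadratic direction, or a nondegenerate plane in a space of
directions along which the degree of `f` is at most four and which contains the `i`-th direction. -/
def Nondegenerate {n : ℕ} (f : MvPolynomial (Fin n) ℚ) (i : Fin n) (z : Fin n → ℚ) : Prop :=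
  (f.degreeOf i ≤ 2 ∨ ∃ v : Fin n → ℚ, v i = 0 ∧ QuadraticAlong f v ∧
    (∃ A B : ℚ, A ≠ 0 ∧ B ^ 2 - 4 * A * eval z f ≠ 0 ∧
      ∀ s : ℚ, eval (z + s • v) f = A * s ^ 2 + B * s + eval z f) ∧
    ¬ ∃ c : ℚ, ∀ s : ℚ, eval (z + s • v) (pderiv i f) = c * eval (z + s • v) f) ∨
  ∃ V : Submodule ℚ (Fin n → ℚ), Pi.single i 1 ∈ V ∧
    (∀ z, ∀ v ∈ V, (restriction f z v).natDegree ≤ 4) ∧
    ∃ v ∈ V, ∃ u ∈ V, ∀ α β γ : ℚ, (∀ s t : ℚ, (α * s + β * t) * B f z (s • v + t • u) =
      γ * T f z (s • v + t • u)) → α = 0 ∧ β = 0 ∧ γ = 0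

/-- `S` is the set of the rational points `(w, z)` with `w² = f(z)` for which `z` is nondegenerate
for all variables and, if `w = 0`, for which `f(z + s v) = A s² + B s` with `B ≠ 0` for some
direction `v`, where `f` is a polynomial of degree at most four in each variable. -/
def NondegeneratePoints {n : ℕ} (S : Set (Fin (n + 1) → ℚ)) : Prop :=
  ∃ f : MvPolynomial (Fin n) ℚ, (∀ i, f.degreeOf i ≤ 4) ∧
    S = {u | u 0 ^ 2 = eval (fun k => u k.succ) f ∧ (∀ i, Nondegenerate f i fun k => u k.succ) ∧
      (u 0 ≠ 0 ∨ ∃ (v : Fin n → ℚ) (A B : ℚ), B ≠ 0 ∧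
        ∀ s : ℚ, eval ((fun k => u k.succ) + s • v) f = A * s ^ 2 + B * s)}

/-- A block of `CubicEquations`, or the set of the points whose coordinates in some of `N`
variables form a point of a set as in `NondegeneratePoints`. -/
def Block {N : ℕ} (S : Set (Fin N → ℚ)) : Prop :=
  CubicEquations.Block S ∨
  ∃ (n : ℕ) (e : Fin (n + 1) → Fin N) (S₀ : Set (Fin (n + 1) → ℚ)), Function.Injective e ∧
    NondegeneratePoints S₀ ∧ S = {y | (fun i => y (e i)) ∈ S₀}

lemma NondegeneratePoints.sa {n : ℕ} {S : Set (Fin (n + 1) → ℚ)} (h : NondegeneratePoints S) :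
    SA (closure (rl S)) := by
  obtain ⟨f, hf, rfl⟩ := h
  exact gen2_final f hf

lemma Block.sa {N : ℕ} {S : Set (Fin N → ℚ)} (h : Block S) : SA (closure (rl S)) := by
  rcases h with h | ⟨n, e, S₀, he, hS₀, rfl⟩
  · exact IsoR.cubic_SA h
  · exact cyl_rl hS₀.sa he

open CubicEquations (values)

theorem result :
    -- finitely many isolated points
    (∀ (a b N m : ℕ) (S : Fin a → Fin b → Set (Fin N → ℚ)), (∀ i j, Block (S i j)) →
      ∀ (Ω : Fin a → Set (Fin b × Fin N → ℝ)), (∀ i, IsOpen (Ω i)) →
      ∀ (p : Fin a → Fin m → MvPolynomial (Fin b × Fin N) ℚ)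
        (q : Fin a → MvPolynomial (Fin b × Fin N) ℚ) (D : Set (Fin m → ℚ)),
        D = ⋃ i, values (algebraMap ℚ ℝ) (S i) (Ω i) (p i) (q i) →
        {t ∈ D | ∃ U ∈ nhds (fun k => (t k : ℝ)), ∀ s ∈ D, (fun k => (s k : ℝ)) ∈ U →
          s = t}.Finite) ∧
    -- sets of integers of this kind are finite
    (∀ (a b N : ℕ) (S : Fin a → Fin b → Set (Fin N → ℚ)), (∀ i j, Block (S i j)) →
      ∀ (Ω : Fin a → Set (Fin b × Fin N → ℝ)), (∀ i, IsOpen (Ω i)) →
      ∀ (p q : Fin a → MvPolynomial (Fin b × Fin N) ℚ) (D : Set ℚ),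
        D = {t | ∃ i, ∃ x : Fin b × Fin N → ℚ, (∀ j, (fun r => x (j, r)) ∈ S i j) ∧
          (fun s => ((x s : ℚ) : ℝ)) ∈ Ω i ∧ eval x (q i) ≠ 0 ∧
          t = eval x (p i) / eval x (q i)} →
        D ⊆ Set.range ((↑) : ℤ → ℚ) → D.Finite) ∧
    -- in particular, the set of the values of a rational function at the nondegenerate solutions
    -- of one equation is not the set of the integers
    (∀ (n : ℕ) (S : Set (Fin (n + 1) → ℚ)), NondegeneratePoints S → ∀ p q : MvPolynomial (Fin (n + 1)) ℚ,
        {t : ℚ | ∃ y ∈ S, eval y q ≠ 0 ∧ t = eval y p / eval y q} ≠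
          Set.range ((↑) : ℤ → ℚ)) := by
  refine ⟨?_, ?_, ?_⟩
  · intro a b N m S hS Ω hΩ p q D hD
    exact IsoR.iso_union (fun i j => (hS i j).sa) hΩ p q hD
  · intro a b N S hS Ω hΩ p q D hD hDZ
    exact IsoR.ints (fun i j => (hS i j).sa) hΩ p q hD hDZ
  · intro n S hS p q
    exact IsoR.one hS.sa p q

end Pool.Agent.Results.MP_28f2cb_lc.SeveralParameters
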